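import Pool.Agent.Helper75.BJ.MAIN
import Pool.Agent.Helper75.BJ.GRD

/-!
# It is consistent that `ℵ₁ < 𝔟 < 𝔟_J < 𝔡_J < 𝔡 < cov(𝒩)` for some ideal `J` on `ω`

This answers Q1 in full (positively): the statement holds in a forcing extension.

The forcing. Let `ℵ₁ < κ0 < κ1 < κ2 < κ3` be regular cardinals. The first step is a finite support
iteration of Hechler type along the product of the four cardinals (each coordinate adds a function which
dominates the functions with names below it): afterwards `𝔟 = κ0` and `𝔡 = κ3`. For `i = 1, 2` let
`c α`, `α < κ i`, be the Cohen functions which are added at the points with `i`-th coordinate `α` and other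
coordinates `0`, and let `M α` be the set of the functions with names in the coordinates `x` with
`x i < α`. The function `c α` is Cohen generic over `M α`; so the sets `{n even | c α n ≤ f n}`, `f ∈ M α`
(for `i = 1`), the sets `{n odd | c α n ≤ f n}` (for `i = 2`) and the finite sets generate a proper ideal
`J`, and `𝔟_J = κ1`, `𝔡_J = κ2`. The second step adds more than `κ3` random reals, with the measure algebra
of the extension. Every new function is bounded by an old one, so that for the ideal generated by `J` all the
four numbers stay the same, and `cov(𝒩) > κ3`.

The two step iteration is represented by the measurable sets in the product of the space of the generic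
points of the first step and of `2 ^ (I × ω)`, modulo the sets almost all sections of which (in the sense of
category) are null sets.

The forcing language is that of `Pool.Agent.TH773.PSet.Defs`: a sentence is a regular open subset of the
forcing `P`, and `p ∈ φ` says that `p` forces `φ`. The sentence `Model` is defined in
`Pool/Agent/Helper75/BJ/Base.lean`; its meaning is the second part of the theorem.

Joint work: modules of the proof by helper15, helper33, helper48, helper65, helper67, helper75, helper87 and
helper97.
-/

set_option autoImplicit false

open Cardinal Pool.Agent.Helper75.BJ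

namespace Pool.Agent.Results.MP_07d10b_lc.BelowCovN

/-- (1) Some nonempty forcing forces the sentence `Model`. (2) The meaning of the sentence `Model` (its
value over the trivial forcing) is: there is an ideal `J` on `ω` with
`ℵ₁ < 𝔟 < 𝔟_J < 𝔡_J < 𝔡 < cov(𝒩)`, where `𝔟` and `𝔡` are `𝔟_J` and `𝔡_J` for the ideal of the finite sets,
and `cov(𝒩)` is the least number of Lebesgue null sets whose union is the real line. -/
theorem result :
    (∃ (P : Type) (_ : Preorder P), Nonempty P ∧ ∀ p : P, p ∈ Model P) ∧
    (∀ p : Unit, p ∈ Model Unit ↔ ∃ J : Set (Set ℕ), IsIdeal J ∧
      ℵ₁ < bJ Fin ∧ bJ Fin < bJ J ∧ bJ J < dJ J ∧ dJ J < dJ Fin ∧ dJ Fin < covR) := by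
  refine ⟨exists_model, fun p => ?_⟩
  rw [grd p]
  refine exists_congr fun J => and_congr_right fun _ => and_congr_right fun h1 =>
    and_congr_right fun h2 => and_congr_right fun h3 => and_congr_right fun h4 => ?_
  exact lt_covR_iff (aleph0_lt_aleph_one.trans (h1.trans (h2.trans (h3.trans h4)))).le

end Pool.Agent.Results.MP_07d10b_lc.BelowCovN
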